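import Pool.Agent.H290Z.Rs.Glue

set_option autoImplicit false

open Filter Topology

namespace Pool.Agent.Results.MP_412c32_gt.ACompactOne

/-- `t` is a Hausdorff group topology on `G` in which every sequence of `S` converges to the
identity. (So `S` is a `T_s`-set iff some `t` is admissible for it.) -/
def Admissible {G : Type} [Group G] (S : Set (ℕ → G)) (t : TopologicalSpace G) : Prop :=
  @IsTopologicalGroup G t _ ∧ @T2Space G t ∧ ∀ u ∈ S, Tendsto u atTop (@nhds G t 1)

/-- `S` is a `T_s`-set and `τ = τ_S`: the topology `τ` is admissible for `S` and is finer than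
every admissible topology. -/
def Generates {G : Type} [Group G] (S : Set (ℕ → G)) (τ : TopologicalSpace G) : Prop :=
  Admissible S τ ∧ ∀ t : TopologicalSpace G, Admissible S t →
    ∀ U : Set G, IsOpen[t] U → IsOpen[τ] U

/-- `r_s(G, τ)`: the least cardinality of a set `S` of sequences with `τ_S = τ`. -/
noncomputable def rs (G : Type) [Group G] (τ : TopologicalSpace G) : Cardinal :=
  sInf {c : Cardinal | ∃ S : Set (ℕ → G), Generates S τ ∧ Cardinal.mk S = c}

open Pool.Agent.H290Z.Rs

lemma generates {F : Type} [Group F] [Finite F] [IsSimpleGroup F] [TopologicalSpace F]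
    [DiscreteTopology F] (a c : F) (hac : c * a ≠ a * c) :
    Generates {fun n => tail n (fun _ => a)} (Pi.topologicalSpace : TopologicalSpace (ℕ → F)) := by
  have hG : IsTopologicalGroup (ℕ → F) := inferInstance
  have h1 : ∀ n : ℕ, {x : ℕ → F | ∀ i < n, x i = 1} ∈ 𝓝 (1 : ℕ → F) := by
    intro n
    have h2 : ∀ᶠ x : ℕ → F in 𝓝 1, ∀ i ∈ Finset.range n, x i = 1 := by
      rw [eventually_all_finset]
      intro i _
      have h3 : Tendsto (fun x : ℕ → F => x i) (𝓝 1) (𝓝 1) :=
        (continuous_apply i).continuousAt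
      exact h3.eventually (p := fun y : F => y = 1) (by simp [nhds_discrete])
    filter_upwards [h2] with x hx i hi
    exact hx i (Finset.mem_range.2 hi)
  refine ⟨⟨hG, inferInstance, ?_⟩, ?_⟩
  · rintro u rfl
    rw [tendsto_pi_nhds]
    intro i
    refine tendsto_const_nhds.congr' ?_
    filter_upwards [eventually_gt_atTop i] with n hn
    simp [tail, hn]
  · intro t ht
    have hle : @nhds (ℕ → F) Pi.topologicalSpace 1 ≤ @nhds (ℕ → F) t 1 := by
      intro V hV
      obtain ⟨n, hn⟩ := nhds_contains_tail a c hac t ht.1 (ht.2.2 _ rfl) V hV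
      exact mem_of_superset (h1 n) fun x hx => hn x hx
    have hcont : @Continuous (ℕ → F) (ℕ → F) Pi.topologicalSpace t (MonoidHom.id (ℕ → F)) :=
      @continuous_of_continuousAt_one (ℕ → F) Pi.topologicalSpace _ hG (ℕ → F) _ _ t
        (@IsTopologicalGroup.toContinuousMul _ t _ ht.1) _ _ (MonoidHom.id (ℕ → F)) (by
          unfold ContinuousAt
          exact hle)
    intro U hU
    exact @IsOpen.preimage _ _ Pi.topologicalSpace t _ hcont U hU

lemma not_discrete {F : Type} [Group F] [Finite F] [Nontrivial F] [TopologicalSpace F]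
    [DiscreteTopology F] : ¬ DiscreteTopology (ℕ → F) := by
  intro h
  have h1 : Finite (ℕ → F) := finite_of_compact_of_discrete
  exact not_finite (ℕ → F)

/-- **A compact metrizable group with `r_s = 1`.** There is a non-discrete, separable,
metrizable (even compact) topological group which is an `s`-group with `r_s = 1 < 𝔠`. -/
theorem result : ∃ (G : Type) (_ : Group G) (τ : TopologicalSpace G),
    IsTopologicalGroup G ∧ TopologicalSpace.MetrizableSpace G ∧
    TopologicalSpace.SeparableSpace G ∧ CompactSpace G ∧ ¬ DiscreteTopology G ∧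
    (∃ S : Set (ℕ → G), Generates S τ) ∧ rs G τ = 1 ∧ rs G τ < Cardinal.continuum := by
  let F : Type := alternatingGroup (Fin 5)
  let _ : TopologicalSpace F := ⊥
  have : DiscreteTopology F := ⟨rfl⟩
  have hsimple : IsSimpleGroup F := alternatingGroup.isSimpleGroup (by simp)
  have hnc : ∃ a c : F, c * a ≠ a * c := by
    refine ⟨⟨Equiv.swap 0 1 * Equiv.swap 1 2, Equiv.Perm.mem_alternatingGroup.2 (by decide)⟩,
      ⟨Equiv.swap 0 1 * Equiv.swap 2 3, Equiv.Perm.mem_alternatingGroup.2 (by decide)⟩, ?_⟩
    intro h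
    have := congrArg (fun g : F => (g : Equiv.Perm (Fin 5)) 0) h
    revert this
    decide
  obtain ⟨a, c, hac⟩ := hnc
  have hgen := generates a c hac
  have hnd : ¬ DiscreteTopology (ℕ → F) := not_discrete
  have hrs : rs (ℕ → F) Pi.topologicalSpace = 1 := by
    refine IsLeast.csInf_eq ⟨⟨_, hgen, Cardinal.mk_singleton _⟩, ?_⟩
    rintro κ ⟨S, hS, rfl⟩
    rw [Cardinal.one_le_iff_ne_zero, Cardinal.mk_ne_zero_iff, Set.nonempty_coe_sort]
    by_contra hne
    rw [Set.not_nonempty_iff_eq_empty] at hne
    subst hne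
    apply hnd
    rw [discreteTopology_iff_forall_isOpen]
    intro U
    refine hS.2 ⊥ ?_ U (@isOpen_discrete _ ⊥ (discreteTopology_bot _) U)
    let _ : TopologicalSpace (ℕ → F) := ⊥
    have : DiscreteTopology (ℕ → F) := ⟨rfl⟩
    exact ⟨{ continuous_mul := continuous_of_discreteTopology
             continuous_inv := continuous_of_discreteTopology }, inferInstance, by simp⟩
  refine ⟨ℕ → F, inferInstance, Pi.topologicalSpace, inferInstance, inferInstance, inferInstance,
    inferInstance, hnd, ⟨_, hgen⟩, hrs, ?_⟩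
  rw [hrs]
  exact Cardinal.one_lt_aleph0.trans Cardinal.aleph0_lt_continuum

end Pool.Agent.Results.MP_412c32_gt.ACompactOne
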